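import Pool.Agent.H920.Cv.Curve

/-!
# The section conjecture for the Nori fundamental gerbe fails over every finitely generated field of
positive characteristic

Let `κ` be a finitely generated field of characteristic `p > 0`, finite or infinite, and let `k₀` be
its finite field of constants.  Some smooth plane curve `X₀` over `k₀` has the following properties:
its base change `X` to `κ` has genus at least `N` and no point over the extensions of `κ` of degree
at most `r`, while every profinite gerbe over `κ` with an object over `X`, so the Nori fundamental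
gerbe of `X`, has an object over `κ`.  The object is obtained by descending the restriction of the
given object to the formal neighbourhood of a constant closed point along high Frobenius powers.
-/

set_option autoImplicit false

open CategoryTheory AlgebraicGeometry

namespace Pool.Agent.Results.MP_e6d05b_ag.EveryPositiveCharacteristic

open Pool.Agent.H666R3.NG Pool.Agent.Y939.NG Pool.Agent.H920

/-- The spectrum of a field extension `K` of `κ`, as a scheme over `κ`. -/
noncomputable abbrev specOver (κ K : Type) [Field κ] [Field K] [Algebra κ K] : Sch κ :=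
  Over.mk (Spec.map (CommRingCat.ofHom (algebraMap κ K)))

/-- The section conjecture for the Nori fundamental gerbe fails over every field `κ` of positive
characteristic which is finitely generated over its prime field: for all `r` and `N` there is a
proper smooth geometrically integral (so geometrically connected) curve `X` over `κ` of genus
`g ≥ N`, with no point over `κ` and no point over the extensions of `κ` of degree at most `r`, such
that every profinite gerbe over `κ` with an object over `X` has a `κ`-point; in particular every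
Nori fundamental gerbe of `X` has a `κ`-point and `σ_X` is not surjective. -/
theorem result (κ : Type) [Field κ] (hκ : FinGenOverPrime κ) (p : ℕ) (hp : p.Prime) (hc : CharP κ p)
    (r N : ℕ) : ∃ (X : Sch κ) (g : ℕ), N ≤ g ∧
      IsProper X.hom ∧ SmoothOfRelativeDimension 1 X.hom ∧ GeometricallyConnected X.hom ∧
      GeometricallyIntegral X.hom ∧ HasGenus X.hom g ∧ IsEmpty (pt κ ⟶ X) ∧
      (∀ (K : Type) [Field K] [Algebra κ K], 0 < Module.finrank κ K → Module.finrank κ K ≤ r →
        IsEmpty (specOver κ K ⟶ X)) ∧
      (∀ Pi : OverSch κ, IsProfiniteGerbe Pi → Nonempty (Pi.p.Fiber X) → Nonempty (Points Pi)) ∧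
      ∀ (Pi : OverSch κ) (ξ : Pi.p.Fiber X) (h : IsNoriGerbe X Pi ξ),
        Nonempty (Points Pi) ∧ ¬ Function.Surjective (sigma h) := by
  haveI : Fact p.Prime := ⟨hp⟩
  letI : Algebra (ZMod p) κ := ZMod.algebra κ p
  haveI : Algebra.EssFiniteType (ZMod p) κ := essFinite_of_finGen p hκ
  haveI hfin : Finite (conF κ p) := conF_finite (ZMod p) κ p
  haveI := Fintype.ofFinite (conF κ p)
  obtain ⟨D, hD, hg, hpt⟩ := exists_dat (k₀ := conF κ p) (hasPl (ZMod p) κ) (max r 1) N
  have hempty : ∀ (K : Type) [Field K] [Algebra κ K], 0 < Module.finrank κ K →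
      Module.finrank κ K ≤ max r 1 →
      ∀ a : Spec (.of K) ⟶ Pool.Agent.Helper198.Sch.V (D.map (algebraMap (conF κ p) κ)).J,
        a ≫ Pool.Agent.Helper198.Sch.V.str (D.map (algebraMap (conF κ p) κ)).J =
          Spec.map (CommRingCat.ofHom (algebraMap κ K)) → False := by
    intro K _ _ h1 h2 a ha
    refine (D.map (algebraMap (conF κ p) κ)).no_section (K := K) (fun s a b => ?_) a ha
    rw [val_map]
    exact hpt K h1 h2 s a b
  have h0 : IsEmpty (pt κ ⟶ (Over.mk
      (Pool.Agent.Helper198.Sch.V.str (D.map (algebraMap (conF κ p) κ)).J) : Sch κ)) :=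
    ⟨fun a => hempty κ (by simp) (by simp) a.left (by
      have h1 : a.left ≫ Pool.Agent.Helper198.Sch.V.str (D.map (algebraMap (conF κ p) κ)).J =
        𝟙 _ := Over.w a
      exact h1.trans (Spec.map_id _).symm)⟩
  have hD' := hD.map (algebraMap (conF κ p) κ)
  have hgi := Dat.Good.geometricallyIntegral_curve (D.map (algebraMap (conF κ p) κ)) hD'
  have hpts : ∀ Pi : OverSch κ, IsProfiniteGerbe Pi → Nonempty (Pi.p.Fiber (Over.mk
      (Pool.Agent.Helper198.Sch.V.str (D.map (algebraMap (conF κ p) κ)).J) : Sch κ)) →
      Nonempty (Points Pi) := by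
    rintro Pi hPi ⟨ξ⟩
    obtain ⟨x⟩ := exists_point_gerbe (κ := κ) (k₀ := conF κ p) (p := p)
      (fun L _ _ _ => isField_tensor (conF_closed hfin))
      (fun E _ _ _ _ => by
        letI : Algebra (ZMod p) E := ZMod.algebra E p
        haveI : Algebra.EssFiniteType (ZMod p) E := essFinite_trans (κ := κ) p
        exact conF_finite (ZMod p) E p)
      hD hPi ξ
    exact ⟨Quotient.mk _ x⟩
  refine ⟨Over.mk (Pool.Agent.Helper198.Sch.V.str (D.map (algebraMap (conF κ p) κ)).J),
    (D.n - 1).choose 2, hg, Dat.isProper_curve _, Dat.Good.smooth_curve _ hD', ⟨?_⟩, hgi,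
    Dat.hasGenus_curve _, h0, ?_, hpts, ?_⟩
  · intro K _ y Z fst snd hp
    have hZ : IsIntegral Z := hgi.geometrically_isIntegral y fst snd hp
    infer_instance
  · intro K _ _ h1 h2
    exact ⟨fun a => hempty K h1 (h2.trans (le_max_left _ _)) a.left (Over.w a)⟩
  · intro Pi ξ h
    obtain ⟨y⟩ := hpts Pi h.profinite ⟨ξ⟩
    refine ⟨⟨y⟩, fun hs => ?_⟩
    obtain ⟨a, _⟩ := hs y
    exact h0.false a

end Pool.Agent.Results.MP_e6d05b_ag.EveryPositiveCharacteristic
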